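import Pool.Agent.V1145.BL6
import Pool.Agent.V1145.BK6

/-!
# Two urns, about half of the balls moved: the mixing time is not of order `log n`

The chain of the problem with `d = 2` urns, `n` balls in each urn, `k` balls moved from each urn and
`μ` any distribution on `S_2` whose matrix `U` is irreducible: `μ` gives mass `p > 0` to the
transposition. The state is the number `w` of balls of colour 1 in urn 1 (the other three counts are
then determined). With the balls of each urn labelled by `Fin n`, those of colour 1 first, `S`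
and `T` are the two independent uniformly random sets of `k` balls, and
`nxt w S T = w - #{i ∈ S : i < w} + #{i ∈ T : i < n - w}` is the new state after an exchange.

Idea. Run two copies with the same `S` and `T`. If their states differ by `D`, then the new
difference has mean `(1 - 2 k / n) D` and variance at most `D / 2`. For `k = n / 2` the difference
goes from `D` to about `√D` in one exchange, and of the order of `log log n` exchanges are enough;
for `k / n → 1 / 2` every exchange divides a large difference by a factor that tends to infinity, and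
`o(log n)` exchanges are enough.
-/

set_option autoImplicit false

open Finset Filter Topology

namespace Pool.Agent.Results.MP_1e2081_pr.HalfOfTheBalls

open Pool.Agent.V1145.BK Pool.Agent.V1145.BK.P

/-- Two urns with `n` balls each, `k` of which are moved from each urn at every event; an
event is an exchange with probability `p`, `0 < p ≤ 1`, and changes nothing otherwise. Then:
(1) if `1 ≤ n`, `k ≤ n` and `|1 - 2 k / n| ≤ 1 / 16`, there is exactly one stationary distribution;
(2) let `n = 2 m`, `k = m`: if `4 m ≤ (3 / 2) ^ (2 ^ J)`, `J ≥ 1`, then the total variation distance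
to stationarity at time `t`, from any starting state, is at most `(4 / 3) exp (- p t / (4 J))`;
(3) let `n = 2 m`, `k = m`: `t_mix(ε) ≤ (4 / p) (⌈log₂ ⌈log₂ (4 m)⌉⌉ + 1) log (4 / (3 ε))` for
`0 < ε < 1`;
(4) for every sequence `k_n ≤ n` with `k_n / n → 1 / 2` and every `0 < ε < 1`,
`t_mix(ε) / log n → 0` as `n → ∞`. -/
theorem result (p : ℝ) (hp0 : 0 < p) (hp1 : p ≤ 1) :
    (∀ n k : ℕ, 1 ≤ n → k ≤ n → |1 - 2 * ((k : ℝ) / n)| ≤ 1 / 16 →
      (∃ π : ℕ → ℝ, P.Stationary n k p π) ∧
      ∀ π π' : ℕ → ℝ, P.Stationary n k p π → P.Stationary n k p π' → ∀ x, x ≤ n → π x = π' x) ∧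
    (∀ (m J : ℕ) (π : ℕ → ℝ) (t : ℝ), 1 ≤ J → (4 * m : ℝ) ≤ (3 / 2) ^ (2 ^ J) →
      P.Stationary (2 * m) m p π → 0 ≤ t →
      P.DistLE (2 * m) m p π t (4 / 3 * Real.exp (-(p * t) / (4 * J)))) ∧
    (∀ (m : ℕ) (π : ℕ → ℝ) (ε : ℝ), P.Stationary (2 * m) m p π → 0 < ε → ε < 1 →
      P.mixTime (2 * m) m p π ε ≤
        4 * (Nat.clog 2 (Nat.clog 2 (4 * m)) + 1 : ℕ) / p * Real.log (4 / (3 * ε))) ∧
    (∀ k : ℕ → ℕ, (∀ n, k n ≤ n) → Tendsto (fun n => (k n : ℝ) / n) atTop (𝓝 (1 / 2)) →
      ∀ (π : ℕ → ℕ → ℝ) (ε : ℝ), (∀ᶠ n in atTop, P.Stationary n (k n) p (π n)) → 0 < ε → ε < 1 →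
      Tendsto (fun n : ℕ => P.mixTime n (k n) p (π n) ε / Real.log n) atTop (𝓝 0)) := by
  refine ⟨fun n k _ hk he => P.exists_unique hp0 hk he, ?_, ?_, ?_⟩
  · intro m J π t hJ1 hJ h ht
    exact Pool.Agent.V1145.BL.P.dist_bound hJ1 hJ hp0.le hp1 h ht
  · intro m π ε h h0 h1
    exact Pool.Agent.V1145.BL.P.mix_bound (by omega) (Pool.Agent.V1145.BL.exists_J m) hp0 hp1 h h0 h1
  · intro k hk hlim π ε h h0 h1
    exact P.ratio hp0 hp1 h0 h1 k hk hlim π h

end Pool.Agent.Results.MP_1e2081_pr.HalfOfTheBalls
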